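import Pool.Agent.Helper687_RF.Noeth
import Pool.Agent.Helper687_Borel.FJ
import Pool.Agent.Helper687_Borel.Dir

/-!
# Finite families of normal subgroups with trivial intersection
-/

set_option autoImplicit false

namespace Pool.Agent.Helper687_RF

open Pool.Agent.Helper687_Borel
open Pool.Agent.Y110.FJ (ClosedE)
open Pool.Agent.R941.FJ (C_equiv C_le)

variable {C : ∀ (G : Type) [Group G], Prop}

/-- finite direct products -/
theorem pi_fin (ht : ∀ (G : Type) [Group G], Subsingleton G → C G)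
    (hi : ∀ (G H : Type) [Group G] [Group H] (f : G →* H), Function.Injective f → C H → C G)
    (hp : ∀ (G H : Type) [Group G] [Group H], C G → C H → C (G × H)) (n : ℕ) :
    ∀ (G : Fin n → Type) [∀ i, Group (G i)], (∀ i, C (G i)) → C (∀ i, G i) := by
  induction n with
  | zero =>
    intro G _ _
    exact ht _ ⟨fun a b => funext fun i => i.elim0⟩
  | succ n ih =>
    intro G _ hG
    let f : (∀ i, G i) →* G 0 × (∀ i : Fin n, G i.succ) :=
      { toFun := fun x => (x 0, fun i => x i.succ)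
        map_one' := rfl
        map_mul' := fun _ _ => rfl }
    refine hi _ _ f ?_ (hp _ _ (hG 0) (ih _ fun i => hG i.succ))
    intro x y hxy
    funext i
    refine Fin.cases ?_ (fun j => ?_) i
    · exact congrArg Prod.fst hxy
    · exact congrFun (congrArg Prod.snd hxy) j

theorem pi_finite (ht : ∀ (G : Type) [Group G], Subsingleton G → C G)
    (hi : ∀ (G H : Type) [Group G] [Group H] (f : G →* H), Function.Injective f → C H → C G)
    (hp : ∀ (G H : Type) [Group G] [Group H], C G → C H → C (G × H)) (ι : Type) [Finite ι]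
    (G : ι → Type) [∀ i, Group (G i)] (hG : ∀ i, C (G i)) : C (∀ i, G i) := by
  obtain ⟨n, ⟨e⟩⟩ := Finite.exists_equiv_fin ι
  let f : (∀ i, G i) →* (∀ j : Fin n, G (e.symm j)) :=
    { toFun := fun x j => x (e.symm j)
      map_one' := rfl
      map_mul' := fun _ _ => rfl }
  refine hi _ _ f ?_ (pi_fin ht hi hp n _ fun j => hG _)
  intro x y hxy
  funext i
  have h1 := congrFun hxy (e i)
  have h2 : ∀ z : ∀ i, G i, z (e.symm (e i)) = z (e.symm (e i)) := fun _ => rfl
  have h3 : x (e.symm (e i)) = y (e.symm (e i)) := h1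
  rw [e.symm_apply_apply] at h3
  exact h3

theorem c_triv (hC : ClosedE C) (G : Type) [Group G] (h : Subsingleton G) : C G :=
  Pool.Agent.Y430.SS.of_finite hC.base _ inferInstance

/-- extensions by groups with a finite family of normal subgroups -/
theorem fam_ext (hC : ClosedE C) {G : Type} [Group G] (N : Subgroup G) [hNn : N.Normal]
    {ι : Type} [Finite ι] (K : ι → Subgroup N) [hn : ∀ i, (K i).Normal]
    (hint : ∀ n, (∀ i, n ∈ K i) → n = 1) (hst : ∀ i, (stab (K i)).FiniteIndex)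
    (hM : ∀ i, MT C (N ⧸ K i)) (hQ : C (G ⧸ N)) : C G := by
  rcases isEmpty_or_nonempty ι with hι | hι
  · refine hC.base.of_injective _ _ (QuotientGroup.mk' N) ?_ hQ
    rw [injective_iff_map_eq_one]
    intro g hg
    have h1 : g ∈ N := (QuotientGroup.eq_one_iff g).1 hg
    have h2 : (⟨g, h1⟩ : N) = 1 := hint _ fun i => hι.elim i
    exact congrArg Subtype.val h2
  obtain ⟨G1, hG1⟩ : ∃ G1 : Subgroup G, G1 = ⨅ i, (stab (K i)).comap MulAut.conjNormal := ⟨_, rfl⟩
  have hG1m : ∀ g, g ∈ G1 ↔ ∀ i, (MulAut.conjNormal g : MulAut N) ∈ stab (K i) := by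
    intro g
    rw [hG1, Subgroup.mem_iInf]
    rfl
  have hfin : G1.FiniteIndex := by
    rw [hG1]
    refine Subgroup.finiteIndex_iInf fun i => ?_
    have h0 := hst i
    have h1 : ((stab (K i)).subgroupOf (MulAut.conjNormal : G →* MulAut N).range).FiniteIndex :=
      inferInstance
    exact ⟨by rw [Subgroup.index_comap]; exact h1.index_ne_zero⟩
  refine hC.base.finiteIndex G G1 hfin ?_
  have hNG : N ≤ G1 := by
    intro n hnN
    rw [hG1m]
    intro i x
    have h1 : (MulAut.conjNormal n : MulAut N) x = (⟨n, hnN⟩ : N) * x * (⟨n, hnN⟩ : N)⁻¹ :=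
      Subtype.ext (MulAut.conjNormal_apply n x)
    rw [h1]
    exact ((hn i).mem_comm_iff (a := (⟨n, hnN⟩ : N) * x) (b := (⟨n, hnN⟩ : N)⁻¹)).trans
      (by rw [inv_mul_cancel_left])
  -- the normal subgroups
  obtain ⟨K', hK'⟩ : ∃ K' : ι → Subgroup G1, K' = fun i => ((K i).map N.subtype).subgroupOf G1 :=
    ⟨_, rfl⟩
  have hK'm : ∀ i (g : G1), g ∈ K' i ↔ ∃ h : (g : G) ∈ N, (⟨g, h⟩ : N) ∈ K i := by
    intro i g
    rw [hK']
    constructor
    · rintro ⟨k, hk, hkg⟩
      have h1 : (k : G) = g := hkg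
      refine ⟨h1 ▸ k.2, ?_⟩
      have h2 : (⟨g, h1 ▸ k.2⟩ : N) = k := Subtype.ext h1.symm
      rw [h2]
      exact hk
    · rintro ⟨h, hk⟩
      exact ⟨⟨g, h⟩, hk, rfl⟩
  have hK'n : ∀ i, (K' i).Normal := by
    intro i
    refine ⟨fun k hk g => ?_⟩
    rw [hK'm] at hk ⊢
    obtain ⟨h, hk⟩ := hk
    have h1 := ((hG1m g).1 g.2 i) ⟨k, h⟩
    refine ⟨hNn.conj_mem _ h _, ?_⟩
    have h2 : (⟨((g * k * g⁻¹ : G1) : G), hNn.conj_mem _ h _⟩ : N) =
        (MulAut.conjNormal (g : G) : MulAut N) ⟨k, h⟩ :=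
      Subtype.ext (MulAut.conjNormal_apply (g : G) (⟨k, h⟩ : N)).symm
    rw [h2]
    exact h1.2 hk
  have hCi : ∀ i, C (G1 ⧸ K' i) := by
    intro i
    have hle : K' i ≤ ((QuotientGroup.mk' N).comp G1.subtype).ker := by
      intro g hg
      obtain ⟨h, -⟩ := (hK'm i g).1 hg
      exact (QuotientGroup.eq_one_iff (g : G)).2 h
    obtain ⟨π, hπ⟩ : ∃ π : G1 ⧸ K' i →* G ⧸ N,
      π = QuotientGroup.lift (K' i) ((QuotientGroup.mk' N).comp G1.subtype) hle := ⟨_, rfl⟩
    have hπm : ∀ g : G1, π (g : G1 ⧸ K' i) = ((g : G) : G ⧸ N) := fun g => by rw [hπ]; rfl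
    have hle2 : K i ≤ (K' i).comap (Subgroup.inclusion hNG) := by
      intro k hk
      rw [Subgroup.mem_comap, hK'm]
      exact ⟨k.2, hk⟩
    obtain ⟨g, hg⟩ : ∃ g : N ⧸ K i →* G1 ⧸ K' i,
      g = QuotientGroup.map (K i) (K' i) (Subgroup.inclusion hNG) hle2 := ⟨_, rfl⟩
    have hgm : ∀ n : N, g (n : N ⧸ K i) = ((Subgroup.inclusion hNG n : G1) : G1 ⧸ K' i) :=
      fun n => by rw [hg]; rfl
    have hgi : Function.Injective g := by
      rw [injective_iff_map_eq_one]
      intro a ha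
      obtain ⟨n, rfl⟩ := QuotientGroup.mk_surjective a
      rw [hgm, QuotientGroup.eq_one_iff, hK'm] at ha
      obtain ⟨h, hk⟩ := ha
      exact (QuotientGroup.eq_one_iff n).2 hk
    have hr : g.range = π.ker := by
      ext x
      obtain ⟨y, rfl⟩ := QuotientGroup.mk_surjective x
      rw [MonoidHom.mem_ker, hπm, QuotientGroup.eq_one_iff]
      constructor
      · rintro ⟨a, ha⟩
        obtain ⟨n, rfl⟩ := QuotientGroup.mk_surjective a
        rw [hgm, QuotientGroup.eq, hK'm] at ha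
        obtain ⟨h, -⟩ := ha
        have h1 : (n : G)⁻¹ * (y : G) ∈ N := h
        have h2 := N.mul_mem n.2 h1
        rwa [mul_inv_cancel_left] at h2
      · intro hy
        refine ⟨((⟨y, hy⟩ : N) : N ⧸ K i), ?_⟩
        rw [hgm]
        rfl
    have hMT : MT C π.ker := by
      rw [← hr]
      exact mt_equiv hC (MonoidHom.ofInjective hgi) (hM i)
    exact ext_top hC π.ker hMT (hC.base.of_injective _ _ (QuotientGroup.kerLift π)
      (QuotientGroup.kerLift_injective _) hQ)
  let F : G1 →* (∀ i, G1 ⧸ K' i) :=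
    { toFun := fun g i => (g : G1 ⧸ K' i)
      map_one' := rfl
      map_mul' := fun _ _ => rfl }
  refine hC.base.of_injective _ _ F ?_ (pi_finite (c_triv hC)
    (fun G H _ _ => hC.base.of_injective G H) (fun G H _ _ => hC.base.prod G H) ι _ hCi)
  rw [injective_iff_map_eq_one]
  intro g hg
  have h1 : ∀ i, g ∈ K' i := fun i => (QuotientGroup.eq_one_iff g).1 (congrFun hg i)
  obtain ⟨i0⟩ := hι
  obtain ⟨h, -⟩ := (hK'm i0 g).1 (h1 i0)
  have h2 : (⟨g, h⟩ : N) = 1 := hint _ fun i => by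
    obtain ⟨h', hk⟩ := (hK'm i g).1 (h1 i)
    exact hk
  have h3 : (g : G) = 1 := congrArg (fun z : N => (z : G)) h2
  exact Subtype.ext h3

/-- the automorphism group -/
theorem fam_aut {D : ∀ (G : Type) [Group G], Prop} (hD : DCl D) {N : Type} [Group N]
    {ι : Type} [Finite ι] (K : ι → Subgroup N) [hn : ∀ i, (K i).Normal]
    (hint : ∀ n, (∀ i, n ∈ K i) → n = 1) (hst : ∀ i, (stab (K i)).FiniteIndex)
    (hM : ∀ i, D (MulAut (N ⧸ K i))) : D (MulAut N) := by
  have hfin : (⨅ i, stab (K i)).FiniteIndex := Subgroup.finiteIndex_iInf hst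
  refine hD.finiteIndex _ (⨅ i, stab (K i)) hfin ?_
  let F : ↥(⨅ i, stab (K i)) →* (∀ i, MulAut (N ⧸ K i)) :=
    { toFun := fun σ i => quo (K i) (Subgroup.inclusion (iInf_le _ i) σ)
      map_one' := by
        funext i
        exact map_one _
      map_mul' := fun σ τ => by
        funext i
        show quo (K i) (Subgroup.inclusion (iInf_le _ i) (σ * τ)) = _
        rw [map_mul, map_mul]
        rfl }
  refine hD.of_injective _ _ F ?_ (pi_finite hD.triv hD.of_injective hD.prod ι _ hM)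
  rw [injective_iff_map_eq_one]
  intro σ hσ
  apply Subtype.ext
  ext n
  show σ.1 n = n
  have h1 : n⁻¹ * σ.1 n = 1 := hint _ fun i => by
    have h2 : quo (K i) (Subgroup.inclusion (iInf_le _ i) σ) = 1 := congrFun hσ i
    have h3 : quo (K i) (Subgroup.inclusion (iInf_le _ i) σ) (n : N ⧸ K i) = (n : N ⧸ K i) := by
      rw [h2]; rfl
    rw [quo_apply] at h3
    exact QuotientGroup.eq.1 h3.symm
  rw [inv_mul_eq_one] at h1
  exact h1.symm

end Pool.Agent.Helper687_RF
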