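import Pool.Agent.Helper687_RF.Noeth
import Pool.Agent.H71R2.Frob.PNG

/-!
# Linear groups over Noetherian rings are equationally Noetherian

(Baumslag, Myasnikov, Remeslennikov; Bryant, Guba.)
-/

set_option autoImplicit false

namespace Pool.Agent.Helper687_RF

open Matrix

section

variable {R : Type} [CommRing R] {d : ℕ} {T : Type}

/-- the generic matrix -/
noncomputable def gen (R : Type) [CommRing R] (d : ℕ) (t : T) :
    Matrix (Fin d) (Fin d) (MvPolynomial (T × Fin d × Fin d) R) :=
  Matrix.of fun i j => MvPolynomial.X (t, i, j)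

/-- evaluation at a family of matrices -/
noncomputable def evm (f : T → Matrix (Fin d) (Fin d) R) :
    MvPolynomial (T × Fin d × Fin d) R →ₐ[R] R :=
  MvPolynomial.aeval fun p => f p.1 p.2.1 p.2.2

theorem evm_gen (f : T → Matrix (Fin d) (Fin d) R) (t : T) : (gen R d t).map (evm f) = f t := by
  ext i j
  rw [Matrix.map_apply]
  show evm f (MvPolynomial.X (t, i, j)) = _
  rw [evm, MvPolynomial.aeval_X]

theorem evm_prod (f : T → Matrix (Fin d) (Fin d) R) (l : List T) :
    ((l.map (gen R d)).prod).map (evm f) = (l.map f).prod := by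
  induction l with
  | nil =>
    simp only [List.map_nil, List.prod_nil]
    exact Matrix.map_one _ (map_zero _) (map_one _)
  | cons t l ih =>
    rw [List.map_cons, List.prod_cons, List.map_cons, List.prod_cons, ← ih]
    have h1 := Matrix.map_mul (L := gen R d t) (M := (l.map (gen R d)).prod)
      (f := ((evm f : _ →ₐ[R] R) : _ →+* R))
    have h2 : (gen R d t * (l.map (gen R d)).prod).map (evm f) =
      (gen R d t).map (evm f) * ((l.map (gen R d)).prod).map (evm f) := h1
    rw [h2, evm_gen]

end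

/-- **groups of matrices over commutative Noetherian rings** -/
theorem eqNoeth_linear (Γ : Type) [Group Γ] (R : Type) [CommRing R] [IsNoetherianRing R] (d : ℕ)
    (ρ : Γ →* (Matrix (Fin d) (Fin d) R)ˣ) (hρ : Function.Injective ρ) : EqNoeth Γ := by
  classical
  intro N _ hN S
  obtain ⟨T, hT⟩ := Monoid.fg_def.1 (Group.fg_iff_monoid_fg.1 hN)
  have hl : ∀ w : N, ∃ l : List T, (l.map (fun t : T => (t : N))).prod = w := by
    intro w
    have h1 : w ∈ Submonoid.closure (T : Set N) := by rw [hT]; trivial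
    obtain ⟨l, hl1, hl2⟩ := Submonoid.exists_list_of_mem_closure h1
    refine ⟨l.attach.map (fun x => ⟨x.1, hl1 x.1 x.2⟩), ?_⟩
    rw [List.map_map]
    have h2 : l.attach.map ((fun t : T => (t : N)) ∘ fun x => ⟨x.1, hl1 x.1 x.2⟩) = l := by
      have h3 : ((fun t : T => (t : N)) ∘ fun x : {x // x ∈ l} => ⟨x.1, hl1 x.1 x.2⟩) =
        (Subtype.val : {x // x ∈ l} → N) := rfl
      rw [h3]
      exact l.attach_map_subtype_val
    rw [h2, hl2]
  choose l hl using hl
  -- the polynomials of a word
  obtain ⟨P, hP⟩ : ∃ P : N → Fin d → Fin d → MvPolynomial (T × Fin d × Fin d) R,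
    P = fun w i j => (((l w).map (gen R d)).prod - 1) i j := ⟨_, rfl⟩
  have hev : ∀ (φ : N →* Γ) (w : N), (∀ i j,
      evm (fun t : T => (ρ (φ t) : Matrix (Fin d) (Fin d) R)) (P w i j) = 0) ↔ φ w = 1 := by
    intro φ w
    have h1 : (((l w).map (gen R d)).prod).map
        (evm (fun t : T => (ρ (φ t) : Matrix (Fin d) (Fin d) R))) =
        (ρ (φ w) : Matrix (Fin d) (Fin d) R) := by
      rw [evm_prod]
      conv_rhs => rw [← hl w]
      generalize l w = l'
      induction l' with
      | nil => simp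
      | cons t l' ih => simp only [List.map_cons, List.prod_cons, map_mul, Units.val_mul, ih]
    have h2 : ∀ i j, evm (fun t : T => (ρ (φ t) : Matrix (Fin d) (Fin d) R)) (P w i j) =
        (ρ (φ w) : Matrix (Fin d) (Fin d) R) i j - (1 : Matrix (Fin d) (Fin d) R) i j := by
      intro i j
      rw [hP]
      show evm _ (((l w).map (gen R d)).prod i j - (1 : Matrix (Fin d) (Fin d) _) i j) = _
      rw [map_sub, ← h1, Matrix.map_apply]
      congr 1
      rw [Matrix.one_apply, Matrix.one_apply]
      split_ifs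
      · exact map_one _
      · exact map_zero _
    constructor
    · intro h
      have h3 : (ρ (φ w) : Matrix (Fin d) (Fin d) R) = 1 := by
        ext i j
        have := h i j
        rw [h2] at this
        exact sub_eq_zero.1 this
      have h4 : ρ (φ w) = 1 := Units.ext h3
      exact hρ (h4.trans (map_one ρ).symm)
    · intro h i j
      rw [h2, h, map_one, Units.val_one, sub_self]
  -- the ideal
  obtain ⟨T', hT'1, hT'2⟩ := (Submodule.fg_span_iff_fg_span_finset_subset
    (R := MvPolynomial (T × Fin d × Fin d) R)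
    {p | ∃ w ∈ S, ∃ i j, p = P w i j}).1 (IsNoetherian.noetherian _)
  have hch : ∀ p : T', ∃ w ∈ S, ∃ i j, (p : MvPolynomial (T × Fin d × Fin d) R) = P w i j :=
    fun p => hT'1 p.2
  choose c hcS hci using hch
  refine ⟨T'.attach.image c, ?_, ?_⟩
  · intro w hw
    obtain ⟨p, -, rfl⟩ := Finset.mem_image.1 (Finset.mem_coe.1 hw)
    exact hcS p
  · intro φ hφ w hw
    rw [← hev φ w]
    intro i j
    have h1 : P w i j ∈ Submodule.span (MvPolynomial (T × Fin d × Fin d) R)
        {p | ∃ w ∈ S, ∃ i j, p = P w i j} := Submodule.subset_span ⟨w, hw, i, j, rfl⟩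
    rw [hT'2] at h1
    have h2 : Submodule.span (MvPolynomial (T × Fin d × Fin d) R) (T' : Set _) ≤
        (RingHom.ker (evm (fun t : T => (ρ (φ t) : Matrix (Fin d) (Fin d) R)))) := by
      rw [Submodule.span_le]
      intro p hp
      obtain ⟨i', j', hij⟩ := hci ⟨p, hp⟩
      have h3 := (hev φ (c ⟨p, hp⟩)).2 (hφ _ (Finset.mem_image.2 ⟨⟨p, hp⟩, Finset.mem_attach _ _, rfl⟩))
        i' j'
      have h4 : p = P (c ⟨p, hp⟩) i' j' := hij
      show evm _ p = 0
      rw [h4]
      exact h3
    exact h2 h1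

/-- free groups of countable rank -/
theorem eqNoeth_free : EqNoeth (FreeGroup ℕ) :=
  eqNoeth_linear (FreeGroup ℕ) (Polynomial ℚ) 2 (FreeGroup.lift (Pool.Agent.H71R2.Frob.PNG.AA ℚ))
    Pool.Agent.H71R2.Frob.PNG.inj

end Pool.Agent.Helper687_RF
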