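import Pool.Agent.Helper687_RF.Fam
import Pool.Agent.Helper687_RF.Linear

/-!
# Groups with a normal series whose factors are finitely generated and residually `Γ`, Whitehead groups
-/

set_option autoImplicit false

namespace Pool.Agent.Helper687_RF

open Pool.Agent.Helper687_Borel
open Pool.Agent.Y110.FJ (ClosedE)

/-- finitely generated fully residually `Γ` groups -/
def Lim (Γ : Type) [Group Γ] (L : Type) [Group L] : Prop := Group.FG L ∧ FullyRes Γ L

/-- `Γ` is isomorphic to a group of matrices of some finite size over a commutative Noetherian ring. -/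
def LinNoeth (Γ : Type) [Group Γ] : Prop :=
  ∃ (R : Type) (_ : CommRing R) (_ : IsNoetherianRing R) (d : ℕ)
    (ρ : Γ →* (Matrix (Fin d) (Fin d) R)ˣ), Function.Injective ρ

/-- `N` has finitely many normal subgroups `K i` with trivial intersection such that the groups `N ⧸ K i`
are finitely generated and fully residually `Γ`, and the stabilizers of `K i` in the automorphism group of `N`
have finite index. -/
def Envelope (Γ : Type) [Group Γ] (N : Type) [Group N] : Prop :=
  ∃ (ι : Type) (_ : Finite ι) (K : ι → Subgroup N) (_ : ∀ i, (K i).Normal),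
    (∀ n, (∀ i, n ∈ K i) → n = 1) ∧ (∀ i, (stab (K i)).FiniteIndex) ∧ ∀ i, Lim Γ (N ⧸ K i)

/-- `G` has a finite series of normal subgroups of `G`, from `1` to `G`, whose factors are finitely generated
and residually `Γ`. -/
inductive NPoly (Γ : Type) [Group Γ] : ∀ (G : Type) [Group G], Prop
  | triv (G : Type) [Group G] (h : Subsingleton G) : NPoly Γ G
  | ext (G : Type) [Group G] (N : Subgroup G) [N.Normal] (hN : Group.FG N) (hr : Res Γ N)
      (hQ : NPoly Γ (G ⧸ N)) : NPoly Γ G

/-- torsion-free groups -/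
def TorFree (G : Type) [Group G] : Prop := ∀ g : G, ∀ k : ℕ, 0 < k → g ^ k = 1 → g = 1

/-- The Whitehead group of `G` is trivial: every invertible matrix over `ℤG`, stabilised by an identity
block, is `± g` on one diagonal entry times a product of commutators of invertible matrices. -/
def WhZero (G : Type) [Group G] : Prop :=
  ∀ (n : ℕ) (A : (Matrix (Fin n) (Fin n) (MonoidAlgebra ℤ G))ˣ),
    ∃ (m : ℕ) (g : G) (ε : ℤˣ)
      (B : (Matrix (Fin n ⊕ Fin (m + 1)) (Fin n ⊕ Fin (m + 1)) (MonoidAlgebra ℤ G))ˣ),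
      B ∈ commutator (Matrix (Fin n ⊕ Fin (m + 1)) (Fin n ⊕ Fin (m + 1)) (MonoidAlgebra ℤ G))ˣ ∧
      Matrix.fromBlocks (A : Matrix (Fin n) (Fin n) (MonoidAlgebra ℤ G)) 0 0
          (1 : Matrix (Fin (m + 1)) (Fin (m + 1)) (MonoidAlgebra ℤ G)) =
        Matrix.diagonal (fun i : Fin n ⊕ Fin (m + 1) =>
          if i = Sum.inr 0 then (MonoidAlgebra.single g (ε : ℤ) : MonoidAlgebra ℤ G) else 1) *
          (B : Matrix (Fin n ⊕ Fin (m + 1)) (Fin n ⊕ Fin (m + 1)) (MonoidAlgebra ℤ G))

theorem eqNoeth_of_linNoeth {Γ : Type} [Group Γ] (h : LinNoeth Γ) : EqNoeth Γ := by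
  obtain ⟨R, _, _, d, ρ, hρ⟩ := h
  exact eqNoeth_linear Γ R d ρ hρ

theorem fg_quotient {N : Type} [Group N] (hN : Group.FG N) (K : Subgroup N) [K.Normal] :
    Group.FG (N ⧸ K) :=
  Group.fg_of_surjective (f := QuotientGroup.mk' K) (QuotientGroup.mk'_surjective K)

theorem envelope {Γ : Type} [Group Γ] (h : EqNoeth Γ) {N : Type} [Group N] (hN : Group.FG N)
    (hr : Res Γ N) : Envelope Γ N := by
  obtain ⟨ι, hι, K, hn, h1, h2, h3⟩ := decomposition h hN hr
  exact ⟨ι, hι, K, hn, h1, h2, fun i => ⟨fg_quotient hN (K i), h3 i⟩⟩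

section

variable {C : ∀ (G : Type) [Group G], Prop}

theorem rf_ext (hC : ClosedE C) {Γ : Type} [Group Γ] (h : EqNoeth Γ)
    (hM : ∀ (L : Type) [Group L], Lim Γ L → MT C L) {G : Type} [Group G] (N : Subgroup G)
    [N.Normal] (hN : Group.FG N) (hr : Res Γ N) (hQ : C (G ⧸ N)) : C G := by
  obtain ⟨ι, hι, K, hn, h1, h2, h3⟩ := envelope h hN hr
  exact fam_ext hC N K h1 h2 (fun i => hM _ (h3 i)) hQ

theorem res_equiv {Γ N M : Type} [Group Γ] [Group N] [Group M] (e : N ≃* M) (h : Res Γ N) :
    Res Γ M := by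
  intro m hm
  obtain ⟨φ, hφ⟩ := h (e.symm m) (by
    intro h1
    exact hm (by rw [← e.apply_symm_apply m, h1, map_one]))
  exact ⟨φ.comp e.symm.toMonoidHom, hφ⟩

theorem rf_mt (hC : ClosedE C) {Γ : Type} [Group Γ] (h : EqNoeth Γ)
    (hM : ∀ (L : Type) [Group L], Lim Γ L → MT C L) {N : Type} [Group N]
    (hN : Group.FG N) (hr : Res Γ N) : MT C N := by
  intro α
  have e : N ≃* (SemidirectProduct.inl (φ := zpowersHom (MulAut N) α)).range :=
    MonoidHom.ofInjective SemidirectProduct.inl_injective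
  have hn : (SemidirectProduct.inl (φ := zpowersHom (MulAut N) α)).range.Normal := by
    rw [SemidirectProduct.range_inl_eq_ker_rightHom]
    infer_instance
  refine rf_ext hC h hM (SemidirectProduct.inl (φ := zpowersHom (MulAut N) α)).range
    (Group.fg_of_surjective (f := e.toMonoidHom) e.surjective) (res_equiv e hr) ?_
  have h1 : (SemidirectProduct.inl (φ := zpowersHom (MulAut N) α)).range =
    (SemidirectProduct.rightHom (φ := zpowersHom (MulAut N) α)).ker :=
    SemidirectProduct.range_inl_eq_ker_rightHom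
  have e2 : (N ⋊[zpowersHom (MulAut N) α] Multiplicative ℤ) ⧸
      (SemidirectProduct.inl (φ := zpowersHom (MulAut N) α)).range ≃* Multiplicative ℤ :=
    (QuotientGroup.quotientMulEquivOfEq h1).trans
      (QuotientGroup.quotientKerEquivOfSurjective _ SemidirectProduct.rightHom_surjective)
  exact hC.base.of_injective _ _ e2.toMonoidHom e2.injective hC.base.int

theorem npoly_mem (hC : ClosedE C) {Γ : Type} [Group Γ] (h : EqNoeth Γ)
    (hM : ∀ (L : Type) [Group L], Lim Γ L → MT C L) {G : Type} [Group G] (hG : NPoly Γ G) : C G := by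
  induction hG with
  | triv G h => exact c_triv hC G h
  | ext G N hN hr _ ih => exact rf_ext hC h hM N hN hr ih

end

theorem res_torFree {Γ N : Type} [Group Γ] [Group N] (hΓ : TorFree Γ) (h : Res Γ N) : TorFree N := by
  intro g k hk hg
  by_contra h1
  obtain ⟨φ, hφ⟩ := h g h1
  exact hφ (hΓ _ k hk (by rw [← map_pow, hg, map_one]))

theorem npoly_torFree {Γ G : Type} [Group Γ] [Group G] (hΓ : TorFree Γ) (h : NPoly Γ G) :
    TorFree G := by
  induction h with
  | triv G h => exact fun g _ _ _ => Subsingleton.elim _ _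
  | ext G N hN hr _ ih =>
    intro g k hk hg
    have h1 : (g : G ⧸ N) = 1 := ih _ k hk (by
      rw [← QuotientGroup.mk_pow, hg]
      rfl)
    have h2 : g ∈ N := (QuotientGroup.eq_one_iff g).1 h1
    have h3 : (⟨g, h2⟩ : N) = 1 := res_torFree hΓ hr _ k hk (Subtype.ext hg)
    exact congrArg Subtype.val h3

theorem free_torFree : TorFree (FreeGroup ℕ) := by
  intro g k hk hg
  have h1 : Function.Injective (fun x : FreeGroup ℕ => x ^ k) := pow_left_injective hk.ne'
  exact h1 (by simpa using hg)

end Pool.Agent.Helper687_RF
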