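import Pool.Agent.Helper687_Borel.Aut

/-!
# Residually `Γ` groups for equationally Noetherian groups `Γ`

The set of homomorphisms from a finitely generated group `N` to an equationally Noetherian group `Γ` is a
Noetherian space. Its irreducible components give finitely many fully residually `Γ` quotients of `N`, which
are permuted by the automorphisms of `N`.
-/

set_option autoImplicit false

namespace Pool.Agent.Helper687_RF

open Pool.Agent.Helper687_Borel (stab mem_stab stab_finiteIndex)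
open TopologicalSpace

/-- equationally Noetherian groups (systems of equations without coefficients) -/
def EqNoeth (Γ : Type) [Group Γ] : Prop :=
  ∀ (N : Type) [Group N], Group.FG N → ∀ S : Set N, ∃ T : Finset N, (T : Set N) ⊆ S ∧
    ∀ φ : N →* Γ, (∀ w ∈ T, φ w = 1) → ∀ w ∈ S, φ w = 1

/-- residually `Γ` groups -/
def Res (Γ : Type) [Group Γ] (N : Type) [Group N] : Prop := ∀ n : N, n ≠ 1 → ∃ φ : N →* Γ, φ n ≠ 1

/-- fully residually `Γ` groups -/
def FullyRes (Γ : Type) [Group Γ] (L : Type) [Group L] : Prop :=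
  ∀ F : Finset L, (∀ x ∈ F, x ≠ 1) → ∃ φ : L →* Γ, ∀ x ∈ F, φ x ≠ 1

section

variable (Γ : Type) [Group Γ] (N : Type) [Group N]

/-- the space of homomorphisms from `N` to `Γ` -/
abbrev Rep : Type := N →* Γ

/-- the Zariski topology -/
instance : TopologicalSpace (Rep Γ N) :=
  TopologicalSpace.generateFrom {U | ∃ w : N, U = {φ : Rep Γ N | (φ : N →* Γ) w ≠ 1}}

variable {Γ N}

theorem isOpen_ne (w : N) : IsOpen {φ : Rep Γ N | (φ : N →* Γ) w ≠ 1} :=
  TopologicalSpace.isOpen_generateFrom_of_mem ⟨w, rfl⟩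

theorem noetherian (h : EqNoeth Γ) (hN : Group.FG N) : NoetherianSpace (Rep Γ N) := by
  rw [noetherianSpace_iff_opens]
  intro s
  refine isCompact_generateFrom rfl ?_
  intro P hP hs
  obtain ⟨T, hT, hT2⟩ := h N hN {w | {φ : Rep Γ N | (φ : N →* Γ) w ≠ 1} ∈ P}
  refine ⟨(fun w => {φ : Rep Γ N | (φ : N →* Γ) w ≠ 1}) '' T, ?_, T.finite_toSet.image _, ?_⟩
  · rintro _ ⟨w, hw, rfl⟩
    exact hT hw
  · intro φ hφ
    obtain ⟨U, hU, hφU⟩ := hs hφ
    obtain ⟨w, rfl⟩ := hP hU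
    by_contra hcon
    have h1 : ∀ w ∈ T, (φ : N →* Γ) w = 1 := by
      intro w hw
      by_contra h2
      exact hcon ⟨_, ⟨w, hw, rfl⟩, h2⟩
    exact hφU (hT2 φ h1 w hU)

/-- the common kernel of a set of homomorphisms -/
def ker (Z : Set (Rep Γ N)) : Subgroup N where
  carrier := {n | ∀ φ ∈ Z, (φ : N →* Γ) n = 1}
  mul_mem' := fun {a b} ha hb φ hφ => by
    show (φ : N →* Γ) (a * b) = 1
    rw [map_mul, ha φ hφ, hb φ hφ, one_mul]
  one_mem' := fun φ _ => map_one (φ : N →* Γ)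
  inv_mem' := fun {a} ha φ hφ => by
    show (φ : N →* Γ) a⁻¹ = 1
    rw [map_inv, ha φ hφ, inv_one]

theorem mem_ker {Z : Set (Rep Γ N)} {n : N} : n ∈ ker Z ↔ ∀ φ ∈ Z, (φ : N →* Γ) n = 1 := Iff.rfl

instance ker_normal (Z : Set (Rep Γ N)) : (ker Z).Normal := ⟨fun n hn g φ hφ => by
  show (φ : N →* Γ) (g * n * g⁻¹) = 1
  rw [map_mul, map_mul, map_inv, hn φ hφ, mul_one, mul_inv_cancel]⟩

/-- the quotient by the kernel of an irreducible set is fully residually `Γ` -/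
theorem fullyRes_of_irreducible {Z : Set (Rep Γ N)} (hZ : IsIrreducible Z) :
    FullyRes Γ (N ⧸ ker Z) := by
  classical
  intro F hF
  obtain ⟨l, hl⟩ : ∃ l : N ⧸ ker Z → N, ∀ x, ((l x : N) : N ⧸ ker Z) = x :=
    ⟨fun x => x.out, fun x => Quotient.out_eq _⟩
  have h1 := isIrreducible_iff_sInter.1 hZ
    (F.image (fun x => {φ : Rep Γ N | (φ : N →* Γ) (l x) ≠ 1})) (by
      intro u hu
      obtain ⟨x, -, rfl⟩ := Finset.mem_image.1 hu
      exact isOpen_ne _) (by
      intro u hu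
      obtain ⟨x, hx, rfl⟩ := Finset.mem_image.1 hu
      by_contra hcon
      refine hF x hx ?_
      rw [← hl x, QuotientGroup.eq_one_iff]
      intro φ hφ
      by_contra h2
      exact hcon ⟨φ, hφ, h2⟩)
  obtain ⟨φ, hφZ, hφ⟩ := h1
  refine ⟨QuotientGroup.lift (ker Z) (φ : N →* Γ) (fun n hn => hn φ hφZ), fun x hx => ?_⟩
  have h2 : φ ∈ {φ : Rep Γ N | (φ : N →* Γ) (l x) ≠ 1} :=
    hφ _ (Finset.mem_coe.2 (Finset.mem_image.2 ⟨x, hx, rfl⟩))
  rw [← hl x]
  exact h2

/-- the action of an automorphism -/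
def act (σ : MulAut N) (φ : Rep Γ N) : Rep Γ N := (φ : N →* Γ).comp (σ⁻¹ : MulAut N).toMonoidHom

theorem act_apply (σ : MulAut N) (φ : Rep Γ N) (n : N) :
    (act σ φ : N →* Γ) n = (φ : N →* Γ) ((σ⁻¹ : MulAut N) n) := rfl

theorem act_act (σ τ : MulAut N) (φ : Rep Γ N) : act σ (act τ φ) = act (σ * τ) φ := by
  refine MonoidHom.ext fun n => ?_
  show (φ : N →* Γ) ((τ⁻¹ : MulAut N) ((σ⁻¹ : MulAut N) n)) = (φ : N →* Γ) (((σ * τ)⁻¹ : MulAut N) n)
  rw [mul_inv_rev]
  rfl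

theorem act_one (φ : Rep Γ N) : act 1 φ = φ := by
  refine MonoidHom.ext fun n => ?_
  show (φ : N →* Γ) (((1 : MulAut N)⁻¹ : MulAut N) n) = (φ : N →* Γ) n
  rw [inv_one]
  rfl

theorem act_continuous (σ : MulAut N) : Continuous (act σ : Rep Γ N → Rep Γ N) := by
  refine continuous_generateFrom_iff.2 ?_
  rintro _ ⟨w, rfl⟩
  exact isOpen_ne ((σ⁻¹ : MulAut N) w)

theorem act_irreducible (σ : MulAut N) {Z : Set (Rep Γ N)} (hZ : IsIrreducible Z) :
    IsIrreducible (act σ '' Z) := hZ.image _ (act_continuous σ).continuousOn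

theorem act_image (σ : MulAut N) (Z : Set (Rep Γ N)) : act σ⁻¹ '' (act σ '' Z) = Z := by
  rw [← Set.image_comp]
  have h1 : (act σ⁻¹ ∘ act σ : Rep Γ N → Rep Γ N) = id := by
    funext φ
    show act σ⁻¹ (act σ φ) = φ
    rw [act_act, inv_mul_cancel, act_one]
  rw [h1, Set.image_id]

theorem act_component (σ : MulAut N) {Z : Set (Rep Γ N)} (hZ : Z ∈ irreducibleComponents (Rep Γ N)) :
    act σ '' Z ∈ irreducibleComponents (Rep Γ N) := by
  refine ⟨act_irreducible σ hZ.1, ?_⟩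
  intro s hs hZs
  have h1 : Z ⊆ act σ⁻¹ '' s := by
    have := Set.image_mono (f := act σ⁻¹) hZs
    rwa [act_image] at this
  have h2 : act σ⁻¹ '' s ⊆ Z := hZ.2 (act_irreducible σ⁻¹ hs) h1
  have h3 := Set.image_mono (f := act σ) h2
  have h4 := act_image σ⁻¹ s
  rw [inv_inv] at h4
  rwa [h4] at h3

theorem ker_act (σ : MulAut N) (Z : Set (Rep Γ N)) :
    ker (act σ '' Z) = (ker Z).map (σ : MulAut N).toMonoidHom := by
  ext n
  rw [Subgroup.mem_map_equiv]
  constructor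
  · intro h φ hφ
    exact h _ ⟨φ, hφ, rfl⟩
  · rintro h _ ⟨φ, hφ, rfl⟩
    exact h φ hφ

/-- **the structure of residually `Γ` groups** -/
theorem decomposition (h : EqNoeth Γ) (hN : Group.FG N) (hres : Res Γ N) :
    ∃ (ι : Type) (_ : Finite ι) (K : ι → Subgroup N) (_ : ∀ i, (K i).Normal),
      (∀ n, (∀ i, n ∈ K i) → n = 1) ∧ (∀ i, (stab (K i)).FiniteIndex) ∧
      ∀ i, FullyRes Γ (N ⧸ K i) := by
  have hnoeth := noetherian h hN
  have hfin : (irreducibleComponents (Rep Γ N)).Finite :=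
    NoetherianSpace.finite_irreducibleComponents
  refine ⟨irreducibleComponents (Rep Γ N), hfin.to_subtype, fun Z => ker Z.1,
    fun Z => ker_normal Z.1, ?_, ?_, ?_⟩
  · intro n hn
    by_contra hn1
    obtain ⟨φ, hφ⟩ := hres n hn1
    obtain ⟨Z, hZ, hφZ⟩ := exists_mem_irreducibleComponents_subset_of_isIrreducible
      ({(φ : Rep Γ N)} : Set (Rep Γ N)) isIrreducible_singleton
    exact hφ (hn ⟨Z, hZ⟩ φ (hφZ rfl))
  · rintro ⟨Z, hZ⟩
    refine stab_finiteIndex (ker Z) (ker '' irreducibleComponents (Rep Γ N)) (hfin.image _) ?_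
    intro σ
    rw [← ker_act]
    exact ⟨_, act_component σ hZ, rfl⟩
  · rintro ⟨Z, hZ⟩
    exact fullyRes_of_irreducible hZ.1

end

end Pool.Agent.Helper687_RF
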